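import Pool.Agent.Q248.GH.Final

/-!
# The convex hull size increases strictly along the geometric homomorphism order of `K_n`

If there is a vertex-injective geometric homomorphism from a geometric realization of `K_n` to
another one, and the two are not isomorphic, then the second one has more vertices on its convex
hull.
-/

namespace Pool.Agent.Results.MP_1038e0_co.HullIncreases

open Pool.Agent.Q248.GH

/-- The points `p 0, …, p (n-1)` are distinct and no three of them are collinear. -/
structure GeneralPosition {n : ℕ} (p : Fin n → ℝ × ℝ) : Prop where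
  inj : Function.Injective p
  noThree : ∀ i j k : Fin n, i ≠ j → i ≠ k → j ≠ k → ¬ Collinear ℝ {p i, p j, p k}

/-- The edges `i j` and `k l` of the realization of `K_n` with the vertices `p 0, …, p (n-1)` cross:
they are two different edges, whose segments meet at a point other than a shared end point. -/
def Cross {n : ℕ} (p : Fin n → ℝ × ℝ) (i j k l : Fin n) : Prop :=
  i ≠ j ∧ k ≠ l ∧ s(i, j) ≠ s(k, l) ∧ ∃ z, z ∈ segment ℝ (p i) (p j) ∧ z ∈ segment ℝ (p k) (p l) ∧
    ¬ ∃ v, (v = i ∨ v = j) ∧ (v = k ∨ v = l) ∧ z = p v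

/-- There is a vertex-injective geometric homomorphism. -/
def Le {n : ℕ} (p q : Fin n → ℝ × ℝ) : Prop := ∃ f : Fin n → Fin n, Function.Injective f ∧
  ∀ i j k l, Cross p i j k l → Cross q (f i) (f j) (f k) (f l)

/-- The realizations are isomorphic. -/
def Iso {n : ℕ} (p q : Fin n → ℝ × ℝ) : Prop := ∃ f : Fin n → Fin n, Function.Bijective f ∧
  ∀ i j k l, Cross p i j k l ↔ Cross q (f i) (f j) (f k) (f l)

/-- the strict order `≺` -/
def Lt {n : ℕ} (p q : Fin n → ℝ × ℝ) : Prop := Le p q ∧ ¬ Iso p q

/-- the number of the vertices that are vertices (extreme points) of the convex hull -/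
noncomputable def h {n : ℕ} (p : Fin n → ℝ × ℝ) : ℕ :=
  {i : Fin n | p i ∈ (convexHull ℝ (Set.range p)).extremePoints ℝ}.ncard

theorem collinear_of_D {a b c : ℝ × ℝ} (hab : a ≠ b) (hD : D a b c = 0) :
    Collinear ℝ {a, b, c} := by
  rw [collinear_iff_of_mem (p₀ := a) (by simp)]
  refine ⟨b - a, ?_⟩
  have hc : ∃ r : ℝ, c = r • (b - a) + a := by
    unfold D at hD
    by_cases h1 : b.1 = a.1
    · have h2 : b.2 - a.2 ≠ 0 := by
        intro h2
        exact hab (Prod.ext h1.symm (by linarith))
      refine ⟨(c.2 - a.2) / (b.2 - a.2), ?_⟩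
      have h3 : c.1 - a.1 = 0 := by
        have : (b.2 - a.2) * (c.1 - a.1) = 0 := by rw [h1] at hD; linarith
        exact (mul_eq_zero.1 this).resolve_left h2
      ext
      · simp only [Prod.fst_add, Prod.smul_fst, Prod.fst_sub, smul_eq_mul]
        rw [h1]; linarith
      · simp only [Prod.snd_add, Prod.smul_snd, Prod.snd_sub, smul_eq_mul]
        rw [div_mul_cancel₀ _ h2]; ring
    · have h2 : b.1 - a.1 ≠ 0 := sub_ne_zero.2 h1
      refine ⟨(c.1 - a.1) / (b.1 - a.1), ?_⟩
      ext
      · simp only [Prod.fst_add, Prod.smul_fst, Prod.fst_sub, smul_eq_mul]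
        rw [div_mul_cancel₀ _ h2]; ring
      · simp only [Prod.snd_add, Prod.smul_snd, Prod.snd_sub, smul_eq_mul]
        field_simp
        linarith
  intro x hx
  rcases hx with rfl | rfl | rfl
  · exact ⟨0, by simp⟩
  · exact ⟨1, by simp⟩
  · obtain ⟨r, hr⟩ := hc
    exact ⟨r, by rw [vadd_eq_add]; exact hr⟩

theorem gp {n : ℕ} {p : Fin n → ℝ × ℝ} (hp : GeneralPosition p) : GP p := by
  intro i j k h1 h2 h3 h4
  exact hp.noThree i j k h1 h2 h3 (collinear_of_D (fun h => h1 (hp.inj h)) h4)

/-- segments with a common end point and another common point -/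
theorem share {a b c z : ℝ × ℝ} (hD : D a b c ≠ 0) (h1 : z ∈ segment ℝ a b)
    (h2 : z ∈ segment ℝ a c) : z = a := by
  obtain ⟨s, t, hs, ht, hst, rfl⟩ := h1
  obtain ⟨s', t', hs', ht', hst', he⟩ := h2
  have e1 : D a b (s' • a + t' • c) = 0 := by rw [he]; exact D_on _ _ _ _ hst
  rw [D_comb _ _ _ _ _ _ hst', D_mid, mul_zero, zero_add] at e1
  have ht0 : t' = 0 := (mul_eq_zero.1 e1).resolve_right hD
  have hs1 : s' = 1 := by linarith
  rw [← he, ht0, hs1]
  simp

theorem cross_iff {n : ℕ} {p : Fin n → ℝ × ℝ} (hp : GeneralPosition p) (i j k l : Fin n) :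
    Cross p i j k l ↔ X (p i) (p j) (p k) (p l) := by
  constructor
  · rintro ⟨hij, hkl, hne, z, z1, z2, z3⟩
    by_cases hik : i = k
    · exfalso
      subst hik
      have hjl : j ≠ l := fun h => hne (by rw [h])
      exact z3 ⟨i, Or.inl rfl, Or.inl rfl, share (gp hp i j l hij hkl hjl) z1 z2⟩
    by_cases hil : i = l
    · exfalso
      subst hil
      have hjk : j ≠ k := fun h => hne (by rw [h, Sym2.eq_swap])
      rw [segment_symm] at z2
      exact z3 ⟨i, Or.inl rfl, Or.inr rfl, share (gp hp i j k hij hkl.symm hjk) z1 z2⟩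
    by_cases hjk : j = k
    · exfalso
      subst hjk
      rw [segment_symm] at z1
      exact z3 ⟨j, Or.inr rfl, Or.inl rfl, share (gp hp j i l hij.symm hkl hil) z1 z2⟩
    by_cases hjl : j = l
    · exfalso
      subst hjl
      rw [segment_symm] at z1 z2
      exact z3 ⟨j, Or.inr rfl, Or.inr rfl, share (gp hp j i k hij.symm hkl.symm hik) z1 z2⟩
    exact X_of_point (gp hp i j k hij hik hjk) (gp hp i j l hij hil hjl)
      (gp hp k l i hkl (Ne.symm hik) (Ne.symm hil)) (gp hp k l j hkl (Ne.symm hjk) (Ne.symm hjl))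
      z1 z2
  · intro hX
    obtain ⟨n1, n2, n3, n4, n5, n6⟩ := X_ne hX
    have n1 : i ≠ j := fun h => n1 (by rw [h])
    have n2 : i ≠ k := fun h => n2 (by rw [h])
    have n3 : i ≠ l := fun h => n3 (by rw [h])
    have n4 : j ≠ k := fun h => n4 (by rw [h])
    have n5 : j ≠ l := fun h => n5 (by rw [h])
    have n6 : k ≠ l := fun h => n6 (by rw [h])
    obtain ⟨z, z1, z2⟩ := X_point hX
    refine ⟨n1, n6, ?_, z, openSegment_subset_segment ℝ _ _ z1,
      openSegment_subset_segment ℝ _ _ z2, ?_⟩
    · intro h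
      rcases Sym2.eq_iff.1 h with h | h
      · exact n2 h.1
      · exact n3 h.1
    · rintro ⟨v, rfl | rfl, h1 | h1, -⟩
      · exact n2 h1
      · exact n3 h1
      · exact n4 h1
      · exact n5 h1

theorem mem_ext_iff {n : ℕ} {p : Fin n → ℝ × ℝ} (hp : Function.Injective p) (i : Fin n) :
    p i ∈ (convexHull ℝ (Set.range p)).extremePoints ℝ ↔ Ext p i := by
  constructor
  · intro hi h1
    have h2 := ((convex_convexHull ℝ
      (Set.range p)).mem_extremePoints_iff_mem_sdiff_convexHull_sdiff.1 hi).2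
    apply h2
    refine convexHull_mono ?_ h1
    rintro _ ⟨u, hu, rfl⟩
    refine ⟨subset_convexHull ℝ _ ⟨u, rfl⟩, ?_⟩
    intro h3
    exact hu (hp (Set.mem_singleton_iff.1 h3))
  · intro hE
    by_contra hi
    apply hE
    have hfin : (Set.range p).Finite := Set.finite_range p
    have hfin' : (p '' {i}ᶜ).Finite := Set.toFinite _
    have hK := closure_convexHull_extremePoints (hfin.isCompact_convexHull ℝ)
      (convex_convexHull ℝ (Set.range p))
    have hsub : (convexHull ℝ (Set.range p)).extremePoints ℝ ⊆ p '' {i}ᶜ := by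
      intro z hz
      obtain ⟨v, rfl⟩ := extremePoints_convexHull_subset hz
      exact ⟨v, fun h => hi (by
        have : v = i := h
        rw [this] at hz; exact hz), rfl⟩
    have h1 : p i ∈ convexHull ℝ (Set.range p) := subset_convexHull ℝ _ ⟨i, rfl⟩
    rw [← hK] at h1
    have h2 := closure_mono (convexHull_mono (𝕜 := ℝ) hsub) h1
    rwa [(hfin'.isClosed_convexHull ℝ).closure_eq] at h2

theorem h_eq {n : ℕ} {p : Fin n → ℝ × ℝ} (hp : Function.Injective p) : h p = hull p := by
  classical
  unfold h hull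
  rw [← Set.ncard_coe_finset]
  congr 1
  ext i
  simp only [Finset.coe_filter, Finset.mem_univ, true_and, Set.mem_ofPred_eq]
  exact mem_ext_iff hp i

/-- **The hull size increases strictly along `≺`.** -/
theorem result (n : ℕ) (p q : Fin n → ℝ × ℝ) (hp : GeneralPosition p) (hq : GeneralPosition q)
    (hlt : Lt p q) : h p < h q := by
  classical
  obtain ⟨⟨f, hf, hle⟩, hiso⟩ := hlt
  have hbij : Function.Bijective f := Finite.injective_iff_bijective.1 hf
  by_contra hc
  push Not at hc
  apply hiso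
  rw [h_eq hp.inj, h_eq hq.inj] at hc
  have hq' : GeneralPosition (q ∘ f) :=
    ⟨hq.inj.comp hf, fun i j k h1 h2 h3 => hq.noThree _ _ _ (fun h => h1 (hf h))
      (fun h => h2 (hf h)) (fun h => h3 (hf h))⟩
  have hhull : hull (q ∘ f) = hull q := by
    unfold hull
    refine Finset.card_equiv (Equiv.ofBijective f hbij) ?_
    intro i
    simp only [Finset.mem_filter, Finset.mem_univ, true_and, Equiv.ofBijective_apply]
    unfold Pool.Agent.Q248.GH.Ext
    have : (q ∘ f) '' {i}ᶜ = q '' {f i}ᶜ := by
      rw [Set.image_comp]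
      congr 1
      ext x
      constructor
      · rintro ⟨y, hy, rfl⟩
        exact fun h => hy (hf h)
      · intro hx
        obtain ⟨y, rfl⟩ := hbij.2 x
        exact ⟨y, fun h => hx (by rw [Set.mem_singleton_iff.1 h]; rfl), rfl⟩
    rw [this]
    rfl
  have hrig := rigid (p := p) (q := q ∘ f) (gp hp) (gp hq') hp.inj hq'.inj (by
    intro i j k l hX
    exact (cross_iff hq _ _ _ _).1 (hle i j k l ((cross_iff hp i j k l).2 hX))) (by
    rw [hhull]; exact hc)
  refine ⟨f, hbij, fun i j k l => ⟨hle i j k l, fun hX => ?_⟩⟩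
  exact (cross_iff hp i j k l).2 (hrig i j k l ((cross_iff hq _ _ _ _).1 hX))

end Pool.Agent.Results.MP_1038e0_co.HullIncreases
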